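import Pool.Agent.H56.CF.Targets

/-!
# Complete family, row EMB: two real embeddings of a real quadratic field
-/

set_option autoImplicit false

open NumberField Module
open scoped nonZeroDivisors

namespace Pool.Agent.H32.CF

open Pool.Agent.H28.RC Pool.Agent.H91.CF Pool.Agent.H24.Cls Pool.Agent.H56.CF

theorem norm_two (K : Type) [Field K] [NumberField K] (h : finrank ℚ K = 2) (σ τ : K →+* ℝ)
    (hne : σ ≠ τ) (x : K) : ((Algebra.norm ℚ x : ℚ) : ℝ) = σ x * τ x := by
  classical
  have hp := Algebra.norm_eq_prod_embeddings ℚ ℂ x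
  set σ' : K →ₐ[ℚ] ℂ := ((algebraMap ℝ ℂ).comp σ).toRatAlgHom with hσ'
  set τ' : K →ₐ[ℚ] ℂ := ((algebraMap ℝ ℂ).comp τ).toRatAlgHom with hτ'
  have e1 : ∀ y : K, σ' y = ((σ y : ℝ) : ℂ) := fun y => rfl
  have e2 : ∀ y : K, τ' y = ((τ y : ℝ) : ℂ) := fun y => rfl
  have hne' : σ' ≠ τ' := by
    intro he
    refine hne (RingHom.ext ?_)
    intro y
    have h1 := congrArg (fun f : K →ₐ[ℚ] ℂ => f y) he
    rw [e1, e2] at h1
    exact_mod_cast h1
  have hu : ({σ', τ'} : Finset (K →ₐ[ℚ] ℂ)) = Finset.univ := by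
    refine Finset.eq_univ_of_card _ ?_
    rw [Finset.card_pair hne', AlgHom.card ℚ K ℂ, h]
  rw [← hu, Finset.prod_pair hne', e1, e2] at hp
  have h3 : (((Algebra.norm ℚ x : ℚ) : ℝ) : ℂ) = ((σ x * τ x : ℝ) : ℂ) := by
    rw [Complex.ofReal_mul, ← hp]
    simp
  exact_mod_cast h3

theorem two_emb (K : Type) [Field K] [NumberField K] (h : finrank ℚ K = 2) (hd : 0 < discr K) :
    ∃ σ τ : K →+* ℝ, σ ≠ τ := by
  classical
  have h0 := complex_zero K h hd
  have h1 := InfinitePlace.card_add_two_mul_card_eq_rank K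
  rw [h0, h, mul_zero, add_zero] at h1
  have h2 : 1 < Fintype.card {w : InfinitePlace K // w.IsReal} := by
    have : InfinitePlace.nrRealPlaces K = Fintype.card {w : InfinitePlace K // w.IsReal} := rfl
    rw [← this, h1]
    norm_num
  obtain ⟨w, w', hw⟩ := Fintype.exists_pair_of_one_lt_card h2
  refine ⟨InfinitePlace.embedding_of_isReal w.2, InfinitePlace.embedding_of_isReal w'.2, ?_⟩
  intro he
  apply hw
  apply Subtype.ext
  have e : (w : InfinitePlace K).embedding = (w' : InfinitePlace K).embedding := by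
    refine RingHom.ext ?_
    intro y
    have h3 := InfinitePlace.embedding_of_isReal_apply w.2 y
    have h4 := InfinitePlace.embedding_of_isReal_apply w'.2 y
    rw [← h3, ← h4, he]
  rw [← InfinitePlace.mk_embedding (w : InfinitePlace K), e, InfinitePlace.mk_embedding]

theorem pf_EMB : T_EMB := by
  intro K _ _ h hd
  refine ⟨two_emb K h hd, ?_⟩
  intro σ τ hne x
  have h1 := norm_two K h σ τ hne (x : K)
  rw [← h1, Ideal.absNorm_span_singleton, ← Algebra.coe_norm_int]
  rw [Nat.cast_natAbs]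
  push_cast
  rfl

end Pool.Agent.H32.CF
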