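import Pool.Agent.H31.CF.U4

/-!
# Complete family, row AVGf: the average over the discriminant at level `g`
-/

set_option autoImplicit false

open MeasureTheory Set Filter
open scoped Real

namespace Pool.Agent.H32.CFU

open Pool.Agent.H31.CN Pool.Agent.H91.CF Pool.Agent.H31.CF

theorem key (hAVG : T_AVG) (hUSL : T_USL) (hUSZ : T_USZ) (hWDS : T_WDS) (hMNS : T_MNS)
    (G : ℝ → ℝ) (η : ℝ) (hη : 0 < η) (hG : ContDiff ℝ (⊤ : ℕ∞) G) (hGs : ∀ u, u ∉ Icc η 1 → G u = 0)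
    (q n d s : ℕ) (K δ : ℝ) (hq : 1 ≤ q) (hn : 1 ≤ n) (hd : 1 ≤ d) (hs : 1 ≤ s) (hdn : d * s ∣ n)
    (hdq : d * s ∣ q) (hδ : 0 < δ) (hδ' : δ ≤ 1 / 100) :
    ∃ X₀ : ℝ, ∀ X, X₀ ≤ X → 1 ≤ X → ∀ (m₁ m₂ : ℕ) (w : ℕ → ℕ → ℤ → ℤ → ℝ), WD q K w →
      Squarefree m₁ → Squarefree m₂ → Nat.Coprime q m₁ → Nat.Coprime q m₂ →
      (m₁ : ℝ) ≤ X ^ (1 / 4 - δ) → (m₂ : ℝ) ≤ X ^ (1 / 4 - δ) →
      |(∑' Δ : ℕ, G (Δ / X) * USg (d * s) d n m₁ m₂ w Δ) -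
        (1 / 2) * ∫ Δ in Ioi (0 : ℝ), G (Δ / X) * Mng q n (d * s) d m₁ m₂ w Δ| ≤
          X ^ (-1 : ℝ) := by
  have hsn : s ∣ n := (dvd_mul_left s d).trans hdn
  have hdq' : d ∣ q := (dvd_mul_right d s).trans hdq
  have hg1 : 1 ≤ d * s := Nat.mul_pos hd hs
  set N : ℕ := (d * s) ^ 2 with hN
  have hN1 : 1 ≤ N := Nat.one_le_pow _ _ hg1
  have hNr : (1 : ℝ) ≤ N := by exact_mod_cast hN1
  have hns : 1 ≤ n / s := Nat.div_pos (Nat.le_of_dvd hn hsn) hs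
  obtain ⟨X₀, hX₀⟩ := hAVG G η hη hG hGs (N * q) (d * (n / s)) (s * K) δ (Nat.mul_pos hN1 hq)
    (Nat.mul_pos hd hns) hδ hδ'
  refine ⟨X₀, ?_⟩
  intro X hX hX1 m₁ m₂ w hw hm1 hm2 c1 c2 b1 b2
  set Y : ℝ := (N : ℝ) * X with hY
  have hX0 : 0 < X := by linarith
  have hXY : X ≤ Y := by
    rw [hY]
    exact le_mul_of_one_le_left hX0.le hNr
  have hY0 : 0 < Y := by linarith
  have hpow : X ^ (1 / 4 - δ) ≤ Y ^ (1 / 4 - δ) :=
    Real.rpow_le_rpow hX0.le hXY (by linarith)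
  have hcop : ∀ m, Nat.Coprime q m → Nat.Coprime (N * q) m := by
    intro m hm
    have h1 : Nat.Coprime (d * s) m := Nat.Coprime.coprime_dvd_left hdq hm
    exact Nat.Coprime.mul_left (Nat.Coprime.pow_left 2 h1) hm
  have hcm : Nat.Coprime (m₁ * m₂) (d * s) := by
    have h1 : Nat.Coprime (d * s) m₁ := Nat.Coprime.coprime_dvd_left hdq c1
    have h2 : Nat.Coprime (d * s) m₂ := Nat.Coprime.coprime_dvd_left hdq c2
    exact (Nat.Coprime.mul_right h1 h2).symm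
  have h := hX₀ Y (hX.trans hXY) m₁ m₂ (ws d s w) (hWDS q d s K w hq hd hs hw) hm1 hm2
    (hcop _ c1) (hcop _ c2) (b1.trans hpow) (b2.trans hpow)
  -- the sum
  have hsum : (d : ℝ) * (∑' Δ : ℕ, G (Δ / Y) * US Δ (fun Q e => Vk ((e : ℝ) ^ 2 * Q.1 /
          (((d * (n / s) : ℕ) : ℝ) * m₁ * m₂ * Real.sqrt Δ)) / Real.sqrt ((e : ℝ) ^ 2 * Q.1) *
          ws d s w e Q.1.toNat Q.2.1 Q.2.2 * Nw m₁ m₂ Q.1.toNat Q.2.1 Q.2.2 e)
          (fun Q => zf Q.1 Q.2.1 Δ)) =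
      ∑' Δ : ℕ, G (Δ / X) * USg (d * s) d n m₁ m₂ w Δ := by
    rw [← tsum_mul_left]
    have hinj : Function.Injective (fun Δ : ℕ => N * Δ) := by
      intro a b hab
      exact Nat.eq_of_mul_eq_mul_left hN1 hab
    rw [← hinj.tsum_eq]
    · refine tsum_congr ?_
      intro Δ
      rcases Nat.eq_zero_or_pos Δ with h0 | h0
      · subst h0
        have e0 : G 0 = 0 := hGs 0 (fun hh => absurd hh.1 (not_le.mpr hη))
        simp only [mul_zero, Nat.cast_zero, zero_div, e0, zero_mul]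
      · have e1 : (((N * Δ : ℕ) : ℝ)) / Y = (Δ : ℝ) / X := by
          rw [hY]
          push_cast
          field_simp
        have h3 := hUSL q d s n m₁ m₂ Δ K w hd hs hsn hn hw hm1 hm2 hcm h0
        rw [← hN] at h3
        rw [e1, ← h3]
        ring
    · intro Δ hΔ
      rw [Function.mem_support] at hΔ
      by_contra hc
      apply hΔ
      have hnd : ¬ (d * s) ^ 2 ∣ Δ := by
        rintro ⟨k, hk⟩
        exact hc ⟨k, hk.symm⟩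
      have h4 := hUSZ d s m₁ m₂ Δ w (fun Q e => Vk ((e : ℝ) ^ 2 * Q.1 /
          (((d * (n / s) : ℕ) : ℝ) * m₁ * m₂ * Real.sqrt Δ)) / Real.sqrt ((e : ℝ) ^ 2 * Q.1))
          (fun Q => zf Q.1 Q.2.1 Δ) hd hs hnd
      rw [h4, mul_zero, mul_zero]
  -- the integral
  have hint : (d : ℝ) * ((1 / 2) * ∫ Δ in Ioi (0 : ℝ), G (Δ / Y) *
        Mn (N * q) (d * (n / s)) m₁ m₂ (ws d s w) Δ) =
      (1 / 2) * ∫ Δ in Ioi (0 : ℝ), G (Δ / X) * Mng q n (d * s) d m₁ m₂ w Δ := by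
    have hNp : (0 : ℝ) < N := by linarith
    have h5 := integral_comp_mul_left_Ioi (fun Δ : ℝ => G (Δ / Y) *
        Mn (N * q) (d * (n / s)) m₁ m₂ (ws d s w) Δ) 0 hNp
    rw [mul_zero, smul_eq_mul] at h5
    have h6 : ∫ Δ in Ioi (0 : ℝ), G (Δ / Y) * Mn (N * q) (d * (n / s)) m₁ m₂ (ws d s w) Δ =
        N * ∫ Δ in Ioi (0 : ℝ), G ((N * Δ) / Y) *
          Mn (N * q) (d * (n / s)) m₁ m₂ (ws d s w) (N * Δ) := by
      rw [h5]
      field_simp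
    rw [h6]
    have h7 : (d : ℝ) * ((1 / 2) * (N * ∫ Δ in Ioi (0 : ℝ), G ((N * Δ) / Y) *
          Mn (N * q) (d * (n / s)) m₁ m₂ (ws d s w) (N * Δ))) =
        (1 / 2) * ((d * N) * ∫ Δ in Ioi (0 : ℝ), G ((N * Δ) / Y) *
          Mn (N * q) (d * (n / s)) m₁ m₂ (ws d s w) (N * Δ)) := by ring
    rw [h7, ← integral_const_mul]
    congr 1
    refine setIntegral_congr_fun measurableSet_Ioi ?_
    intro Δ hΔ
    have e1 : (N : ℝ) * Δ / Y = Δ / X := by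
      rw [hY]
      field_simp
    have h8 := hMNS q d s n m₁ m₂ K w Δ hq hd hs hdq' hsn hn hw hcm hΔ
    have e2 : ((d : ℝ) * s) ^ 2 = (N : ℝ) := by
      rw [hN]
      push_cast
      ring
    rw [e2, ← hN] at h8
    simp only
    rw [e1, ← h8]
    ring
  rw [← hsum, ← hint, ← mul_sub, abs_mul, abs_of_nonneg (by positivity : (0 : ℝ) ≤ d)]
  refine (mul_le_mul_of_nonneg_left h (by positivity)).trans ?_
  rw [Real.rpow_neg_one, Real.rpow_neg_one, hY, mul_inv, ← mul_assoc]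
  have h9 : (d : ℝ) * (N : ℝ)⁻¹ ≤ 1 := by
    rw [← div_eq_mul_inv, div_le_one (by linarith)]
    have h10 : d ≤ N := by
      rw [hN, sq]
      calc d = d * 1 := (mul_one d).symm
        _ ≤ (d * s) * (d * s) := Nat.mul_le_mul (Nat.le_mul_of_pos_right d hs) hg1
    exact_mod_cast h10
  calc (d : ℝ) * (N : ℝ)⁻¹ * X⁻¹ ≤ 1 * X⁻¹ := mul_le_mul_of_nonneg_right h9 (by positivity)
    _ = X⁻¹ := one_mul _

theorem pf_AVGf (hAVG : T_AVG) (hUSL : T_USL) (hUSZ : T_USZ) (hWDS : T_WDS) (hMNS : T_MNS) :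
    T_AVGf' := by
  intro G η hη hG hGs q n g K δ hq hn hsq hgn hgq hδ hδ'
  have hg0 : 0 < g := Nat.pos_of_ne_zero hsq.ne_zero
  have H : ∀ d : ℕ, d ∣ g → ∃ X₀ : ℝ, ∀ X, X₀ ≤ X → 1 ≤ X → ∀ (m₁ m₂ : ℕ)
      (w : ℕ → ℕ → ℤ → ℤ → ℝ), WD q K w →
      Squarefree m₁ → Squarefree m₂ → Nat.Coprime q m₁ → Nat.Coprime q m₂ →
      (m₁ : ℝ) ≤ X ^ (1 / 4 - δ) → (m₂ : ℝ) ≤ X ^ (1 / 4 - δ) →
      |(∑' Δ : ℕ, G (Δ / X) * USg g d n m₁ m₂ w Δ) -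
        (1 / 2) * ∫ Δ in Ioi (0 : ℝ), G (Δ / X) * Mng q n g d m₁ m₂ w Δ| ≤ X ^ (-1 : ℝ) := by
    rintro d ⟨s, rfl⟩
    have hd : 1 ≤ d := Nat.pos_of_mul_pos_right hg0
    have hs : 1 ≤ s := Nat.pos_of_mul_pos_left hg0
    exact key hAVG hUSL hUSZ hWDS hMNS G η hη hG hGs q n d s K δ hq hn hd hs hgn hgq hδ hδ'
  choose! X₀ hX₀ using H
  refine ⟨1 + ∑ d ∈ g.divisors, |X₀ d|, ?_⟩
  intro X hX d m₁ m₂ w hd hw
  have hdm : d ∈ g.divisors := Nat.mem_divisors.mpr ⟨hd, hg0.ne'⟩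
  have h1 : |X₀ d| ≤ ∑ d ∈ g.divisors, |X₀ d| :=
    Finset.single_le_sum (f := fun d => |X₀ d|) (fun i _ => abs_nonneg _) hdm
  have h2 := le_abs_self (X₀ d)
  have h3 : 0 ≤ ∑ d ∈ g.divisors, |X₀ d| := Finset.sum_nonneg (fun i _ => abs_nonneg _)
  exact hX₀ d hd X (by linarith) (by linarith) m₁ m₂ w hw

end Pool.Agent.H32.CFU
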