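import Pool.Agent.H91.CF.TA
import Pool.Agent.H96.CN.LOCOdd
import Pool.Agent.H19.CN.NRT

/-!
# Complete family, row LUO: the local numbers of roots at an odd prime
-/

set_option autoImplicit false

namespace Pool.Agent.H32.CF

open Pool.Agent.H31.CN Pool.Agent.H91.CF

lemma ch_chi (p : ℕ) (h2 : p ≠ 2) (Δ : ℤ) : ch p Δ = chi p Δ := by
  unfold ch chi
  rw [if_neg h2, if_neg h2]

/-- the roots modulo `p ^ 2` over simple roots modulo `p` -/
lemma hensel (p : ℕ) (hp : p.Prime) (A B C : ℤ)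
    (h : ∀ j : ℤ, (p : ℤ) ∣ A * j ^ 2 + B * j + C → ¬ (p : ℤ) ∣ 2 * A * j + B) :
    nrt (p ^ 2) A B C = nrt p A B C := by
  have pp : Prime (p : ℤ) := Nat.prime_iff_prime_int.mp hp
  have hp0 : 0 < p := hp.pos
  have hpz : (p : ℤ) ≠ 0 := pp.ne_zero
  unfold nrt
  refine Finset.card_bij (fun (j : ℕ) _ => j % p) ?_ ?_ ?_
  · intro j hj
    rw [Finset.mem_filter, Finset.mem_range] at hj
    rw [Finset.mem_filter, Finset.mem_range]
    refine ⟨Nat.mod_lt _ hp0, ?_⟩
    have h1 : (p : ℤ) ∣ A * (j : ℤ) ^ 2 + B * (j : ℤ) + C := by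
      refine dvd_trans ?_ hj.2
      push_cast
      exact dvd_pow_self _ two_ne_zero
    have h3 : (p : ℤ) ∣ (j : ℤ) - ((j % p : ℕ) : ℤ) := by
      push_cast
      exact Int.dvd_self_sub_emod
    obtain ⟨m, hm⟩ := h3
    obtain ⟨n, hn⟩ := h1
    refine ⟨n - m * (A * ((j : ℤ) + ((j % p : ℕ) : ℤ)) + B), ?_⟩
    linear_combination hn - (A * ((j : ℤ) + ((j % p : ℕ) : ℤ)) + B) * hm
  · intro i hi j hj hij
    rw [Finset.mem_filter, Finset.mem_range] at hi hj
    have h3 : (p : ℤ) ∣ (i : ℤ) - (j : ℤ) := by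
      have h4 : (i : ℤ) % p = (j : ℤ) % p := by exact_mod_cast hij
      exact Int.ModEq.dvd h4.symm
    obtain ⟨t, ht⟩ := h3
    have hj1 : (p : ℤ) ∣ A * (j : ℤ) ^ 2 + B * (j : ℤ) + C := by
      refine dvd_trans ?_ hj.2
      push_cast
      exact dvd_pow_self _ two_ne_zero
    have h5 := h j hj1
    have h6 : ((p ^ 2 : ℕ) : ℤ) ∣ ((i : ℤ) - j) * (A * (i + j) + B) := by
      have h7 := dvd_sub hi.2 hj.2
      have e : A * (i : ℤ) ^ 2 + B * (i : ℤ) + C - (A * (j : ℤ) ^ 2 + B * (j : ℤ) + C) =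
        ((i : ℤ) - j) * (A * (i + j) + B) := by ring
      rwa [e] at h7
    have h8 : IsCoprime ((p ^ 2 : ℕ) : ℤ) (A * ((i : ℤ) + j) + B) := by
      push_cast
      refine IsCoprime.pow_left ?_
      refine (pp.coprime_iff_not_dvd).2 ?_
      intro h9
      apply h5
      have e : 2 * A * (j : ℤ) + B = (A * ((i : ℤ) + j) + B) - p * (A * t) := by
        linear_combination (-A) * ht
      rw [e]
      exact dvd_sub h9 (dvd_mul_right _ _)
    have h9 : ((p ^ 2 : ℕ) : ℤ) ∣ (i : ℤ) - j := h8.dvd_of_dvd_mul_right h6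
    have h10 : (i : ℤ) ≡ j [ZMOD ((p ^ 2 : ℕ) : ℤ)] := (Int.modEq_iff_dvd.2 h9).symm
    have h11 : i ≡ j [MOD p ^ 2] := by exact_mod_cast h10
    exact Nat.ModEq.eq_of_lt_of_lt h11 hi.1 hj.1
  · intro i hi
    rw [Finset.mem_filter, Finset.mem_range] at hi
    have h5 := h i hi.2
    obtain ⟨m, hm⟩ := hi.2
    have hcop : IsCoprime (2 * A * (i : ℤ) + B) (p : ℤ) :=
      ((pp.coprime_iff_not_dvd).2 h5).symm
    obtain ⟨a, b, hab⟩ := hcop
    -- the lift `i + p t`, `t = - m a` reduced modulo `p`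
    set t : ℕ := ((-(m * a)) % (p : ℤ)).toNat with ht
    have htz : (t : ℤ) = (-(m * a)) % (p : ℤ) := Int.toNat_of_nonneg (Int.emod_nonneg _ hpz)
    have htlt : t < p := by
      have : (t : ℤ) < p := by
        rw [htz]
        exact Int.emod_lt_of_pos _ (by exact_mod_cast hp0)
      exact_mod_cast this
    have hdt : (p : ℤ) ∣ (-(m * a)) - (t : ℤ) := by
      rw [htz]
      exact Int.dvd_self_sub_emod
    obtain ⟨r, hr⟩ := hdt
    refine ⟨i + p * t, ?_, ?_⟩
    · rw [Finset.mem_filter, Finset.mem_range]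
      constructor
      · calc i + p * t < p + p * t := by linarith [hi.1]
          _ = p * (t + 1) := by ring
          _ ≤ p * p := Nat.mul_le_mul_left p htlt
          _ = p ^ 2 := by ring
      · push_cast
        refine ⟨m * b + A * (t : ℤ) ^ 2 - r * (2 * A * i + B), ?_⟩
        linear_combination hm - (p : ℤ) * (2 * A * i + B) * hr - (p : ℤ) * m * hab
    · show (i + p * t) % p = i
      rw [Nat.add_mul_mod_self_left]
      exact Nat.mod_eq_of_lt hi.1

/-- completing the square -/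
lemma nrt_square (q : ℕ) (hq : 0 < q) (A B C Δ : ℤ) (hA : IsCoprime (2 * A) (q : ℤ))
    (hΔ : Δ = 4 * A * C - B ^ 2) : nrt q A B C = nrt q 1 0 Δ := by
  have h2 : IsCoprime (2 : ℤ) (q : ℤ) := hA.of_mul_left_left
  refine Pool.Agent.H19.CN.nrt_sub q hq 1 0 Δ A B C (2 * A) (4 * A) B hA ?_ ?_ ?_ ?_
  · have e : (4 * A : ℤ) = 2 * (2 * A) := by ring
    rw [e]
    exact h2.mul_left hA
  · have e : 4 * A * A - 1 * (2 * A) ^ 2 = 0 := by ring
    rw [e]
    exact dvd_zero _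
  · have e : 4 * A * B - (2 * 1 * (2 * A) * B + 0 * (2 * A)) = 0 := by ring
    rw [e]
    exact dvd_zero _
  · have e : 4 * A * C - (1 * B ^ 2 + 0 * B + Δ) = 0 := by rw [hΔ]; ring
    rw [e]
    exact dvd_zero _

/-- linear congruences -/
lemma nrt_linear (q : ℕ) (hq : 0 < q) (A B C : ℤ) (hA : (q : ℤ) ∣ A) (hB : IsCoprime B (q : ℤ)) :
    nrt q A B C = 1 := by
  have h1 : nrt q A B C = nrt q 0 1 0 := by
    refine Pool.Agent.H19.CN.nrt_sub q hq 0 1 0 A B C B 1 C hB isCoprime_one_left ?_ ?_ ?_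
    · simpa using hA
    · have e : 1 * B - (2 * 0 * B * C + 1 * B) = 0 := by ring
      rw [e]
      exact dvd_zero _
    · have e : 1 * C - (0 * C ^ 2 + 1 * C + 0) = 0 := by ring
      rw [e]
      exact dvd_zero _
  rw [h1]
  unfold nrt
  rw [Finset.card_eq_one]
  refine ⟨0, ?_⟩
  ext j
  rw [Finset.mem_filter, Finset.mem_range, Finset.mem_singleton]
  constructor
  · rintro ⟨h2, h3⟩
    have h4 : (q : ℤ) ∣ (j : ℤ) := by
      have e : (0 : ℤ) * (j : ℤ) ^ 2 + 1 * (j : ℤ) + 0 = j := by ring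
      rwa [e] at h3
    have h5 : q ∣ j := by exact_mod_cast h4
    exact Nat.eq_zero_of_dvd_of_lt h5 h2
  · rintro rfl
    refine ⟨hq, ?_⟩
    simp

theorem pf_LUO : T_LUO := by
  intro p A B C Δ hp h2 hA1 hΔ hg
  have : Fact p.Prime := ⟨hp⟩
  have pp : Prime (p : ℤ) := Nat.prime_iff_prime_int.mp hp
  have hp0 : 0 < p := hp.pos
  have hg' : ¬ (p : ℤ) ^ 2 ∣ Δ := by
    unfold gdp at hg
    rwa [if_neg h2] at hg
  have hn2 : ¬ (p : ℤ) ∣ 2 := Pool.Agent.H96.CN.not_dvd_two p h2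
  have c2 : IsCoprime (2 : ℤ) (p : ℤ) := ((pp.coprime_iff_not_dvd).2 hn2).symm
  have hch : ∀ d : ℤ, ch p d = (nrt p 1 0 d : ℤ) - 1 := by
    intro d
    unfold ch
    rw [if_neg h2]
  have sqd : ∀ x : ℤ, (p : ℤ) ∣ x → (p : ℤ) ^ 2 ∣ x ^ 2 := fun x hx => pow_dvd_pow_of_dvd hx 2
  refine ⟨?_, ?_, ?_⟩
  · intro hpA
    have hpA' : ¬ (p : ℤ) ∣ (A : ℤ) := by
      intro h
      exact hpA (by exact_mod_cast h)
    have cA : IsCoprime (2 * (A : ℤ)) (p : ℤ) :=
      c2.mul_left ((pp.coprime_iff_not_dvd).2 hpA').symm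
    have cA2 : IsCoprime (2 * (A : ℤ)) ((p ^ 2 : ℕ) : ℤ) := by
      push_cast
      exact cA.pow_right
    have e1 := nrt_square p hp0 A B C Δ cA hΔ
    have e2 := nrt_square (p ^ 2) (pow_pos hp0 2) A B C Δ cA2 hΔ
    refine ⟨?_, ?_⟩
    · rw [e1, hch]
      ring
    · rw [e2]
      by_cases hd : (p : ℤ) ∣ Δ
      · have h0 : ch p Δ = 0 := by
          rw [ch_chi p h2]
          exact Pool.Agent.H96.CN.chi_zero p h2 hd
        rw [if_pos h0]
        unfold nrt
        norm_cast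
        rw [Finset.card_eq_zero, Finset.filter_eq_empty_iff]
        intro j _ hj
        have hj' : (p : ℤ) ^ 2 ∣ (j : ℤ) ^ 2 + Δ := by
          have e : (1 : ℤ) * (j : ℤ) ^ 2 + 0 * (j : ℤ) + Δ = (j : ℤ) ^ 2 + Δ := by ring
          rw [← e]
          exact_mod_cast hj
        have h3 : (p : ℤ) ∣ (j : ℤ) ^ 2 := by
          have h4 : (p : ℤ) ∣ (j : ℤ) ^ 2 + Δ := (dvd_pow_self _ two_ne_zero).trans hj'
          exact (dvd_add_left hd).1 h4
        have h4 : (p : ℤ) ∣ (j : ℤ) := pp.dvd_of_dvd_pow h3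
        exact hg' ((dvd_add_right (sqd _ h4)).1 hj')
      · have h0 : ch p Δ ≠ 0 := by
          intro h
          have h3 := Pool.Agent.H96.CN.chi_sq p h2 hd
          rw [← ch_chi p h2, h] at h3
          norm_num at h3
        rw [if_neg h0]
        have h3 : nrt (p ^ 2) 1 0 Δ = nrt p 1 0 Δ := by
          refine hensel p hp 1 0 Δ ?_
          intro j hj h4
          have e : 2 * 1 * j + 0 = 2 * j := by ring
          rw [e] at h4
          have h5 : (p : ℤ) ∣ j := (pp.dvd_or_dvd h4).resolve_left hn2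
          have h6 : (p : ℤ) ∣ 1 * j ^ 2 + 0 * j :=
            dvd_add (Dvd.dvd.mul_left (dvd_pow h5 two_ne_zero) _) (by rw [zero_mul]; exact dvd_zero _)
          exact hd ((dvd_add_right h6).1 hj)
        rw [h3, hch]
        ring
  · intro hpA hpA2
    obtain ⟨A₁, hA₁⟩ := hpA
    have hdiv : A / p = A₁ := by rw [hA₁]; exact Nat.mul_div_cancel_left _ hp0
    have hAz : (A : ℤ) = p * A₁ := by rw [hA₁]; push_cast; ring
    have hA₁n : ¬ (p : ℤ) ∣ (A₁ : ℤ) := by
      intro h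
      have h3 : p ∣ A₁ := by exact_mod_cast h
      apply hpA2
      rw [hA₁, sq]
      exact Nat.mul_dvd_mul_left p h3
    have cA₁ : IsCoprime (2 * (A₁ : ℤ)) (p : ℤ) :=
      c2.mul_left ((pp.coprime_iff_not_dvd).2 hA₁n).symm
    have hpAz : (p : ℤ) ∣ (A : ℤ) := ⟨A₁, hAz⟩
    rw [hdiv]
    have e3 := nrt_square p hp0 A₁ B (p * C) (4 * A₁ * (p * C) - B ^ 2) cA₁ rfl
    have e4 : (nrt p 1 0 (4 * A₁ * (p * C) - B ^ 2) : ℤ) = 1 + ch p (4 * A₁ * (p * C) - B ^ 2) := by
      rw [hch]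
      ring
    have hd0 : (p : ℤ) ∣ 4 * A₁ * (p * C) := ⟨4 * A₁ * C, by ring⟩
    have hd1 : (p : ℤ) ∣ 4 * A * C := by
      rw [hAz]
      exact ⟨4 * A₁ * C, by ring⟩
    by_cases hB : (p : ℤ) ∣ B
    · right
      have hΔd : (p : ℤ) ∣ Δ := by
        rw [hΔ]
        exact dvd_sub hd1 (dvd_pow hB two_ne_zero)
      have h0 : ch p Δ = 0 := by
        rw [ch_chi p h2]
        exact Pool.Agent.H96.CN.chi_zero p h2 hΔd
      have hC : ¬ (p : ℤ) ∣ C := by
        intro hC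
        obtain ⟨C₁, hC₁⟩ := hC
        apply hg'
        rw [hΔ]
        refine dvd_sub ?_ (sqd _ hB)
        rw [hAz, hC₁]
        exact ⟨4 * A₁ * C₁, by ring⟩
      have noroot : ∀ j : ℤ, ¬ (p : ℤ) ∣ A * j ^ 2 + B * j + C := by
        intro j hj
        exact hC ((dvd_add_right (dvd_add (Dvd.dvd.mul_right hpAz _) (Dvd.dvd.mul_right hB _))).1 hj)
      refine ⟨h0, ?_, ?_, ?_⟩
      · unfold nrt
        rw [Finset.card_eq_zero, Finset.filter_eq_empty_iff]
        intro j _ hj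
        exact noroot j hj
      · unfold nrt
        rw [Finset.card_eq_zero, Finset.filter_eq_empty_iff]
        intro j _ hj
        refine noroot j (dvd_trans ?_ hj)
        push_cast
        exact dvd_pow_self _ two_ne_zero
      · have h5 : ch p (4 * A₁ * (p * C) - B ^ 2) = 0 := by
          rw [ch_chi p h2]
          exact Pool.Agent.H96.CN.chi_zero p h2 (dvd_sub hd0 (dvd_pow hB two_ne_zero))
        rw [h5] at e4
        rw [e3]
        omega
    · left
      have cB : IsCoprime B (p : ℤ) := ((pp.coprime_iff_not_dvd).2 hB).symm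
      have h1 : ch p Δ = 1 := by
        rw [ch_chi p h2]
        refine Pool.Agent.H96.CN.chi_one p h2 (s := B) ?_ hB
        rw [hΔ]
        have e : 4 * (A : ℤ) * C - B ^ 2 + B ^ 2 = 4 * A * C := by ring
        rw [e]
        exact hd1
      have h3 := nrt_linear p hp0 A B C hpAz cB
      refine ⟨h1, h3, ?_, ?_⟩
      · rw [hensel p hp A B C, h3]
        intro j _ h4
        apply hB
        have h5 : (p : ℤ) ∣ 2 * A * j := ⟨2 * A₁ * j, by rw [hAz]; ring⟩
        exact (dvd_add_right h5).1 h4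
      · have h5 : ch p (4 * A₁ * (p * C) - B ^ 2) = 1 := by
          rw [ch_chi p h2]
          refine Pool.Agent.H96.CN.chi_one p h2 (s := B) ?_ hB
          have e : 4 * (A₁ : ℤ) * (p * C) - B ^ 2 + B ^ 2 = 4 * A₁ * (p * C) := by ring
          rw [e]
          exact hd0
        rw [h5] at e4
        rw [e3]
        omega
  · intro hpA2
    obtain ⟨A₂, hA₂⟩ := hpA2
    have hdiv : A / p = p * A₂ := by
      rw [hA₂, sq, mul_assoc]
      exact Nat.mul_div_cancel_left _ hp0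
    have hAz : (A : ℤ) = p * (p * A₂) := by rw [hA₂]; push_cast; ring
    have hpAz : (p : ℤ) ∣ (A : ℤ) := ⟨p * A₂, hAz⟩
    have hd1 : (p : ℤ) ∣ 4 * A * C := by
      rw [hAz]
      exact ⟨4 * (p * A₂) * C, by ring⟩
    have hB : ¬ (p : ℤ) ∣ B := by
      intro hB
      apply hg'
      rw [hΔ]
      refine dvd_sub ?_ (sqd _ hB)
      rw [hAz]
      exact ⟨4 * A₂ * C, by ring⟩
    have cB : IsCoprime B (p : ℤ) := ((pp.coprime_iff_not_dvd).2 hB).symm
    have h1 : ch p Δ = 1 := by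
      rw [ch_chi p h2]
      refine Pool.Agent.H96.CN.chi_one p h2 (s := B) ?_ hB
      rw [hΔ]
      have e : 4 * (A : ℤ) * C - B ^ 2 + B ^ 2 = 4 * A * C := by ring
      rw [e]
      exact hd1
    have h3 := nrt_linear p hp0 A B C hpAz cB
    refine ⟨h1, h3, ?_, ?_⟩
    · rw [hensel p hp A B C, h3]
      intro j _ h4
      apply hB
      have h5 : (p : ℤ) ∣ 2 * A * j := ⟨2 * (p * A₂) * j, by rw [hAz]; ring⟩
      exact (dvd_add_right h5).1 h4
    · rw [hdiv]
      refine nrt_linear p hp0 _ B (p * C) ?_ cB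
      push_cast
      exact dvd_mul_right _ _

end Pool.Agent.H32.CF
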